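import Pool.Agent.H92.EQ.TF2
import Pool.Agent.H78.EQ.Wir

/-!
# MP_75a732_an, rows S2, S3: flat Stokes
-/

set_option autoImplicit false

open scoped BigOperators ComplexConjugate ContDiff ComplexOrder
open MeasureTheory
open Pool.Agent.H92.EQ

namespace Pool.Agent.H46.EQ

noncomputable section

section gen

variable {ι : Type} [Fintype ι] [DecidableEq ι]

theorem s_glob {U K : Set (ι → ℂ)} (hU : IsOpen U) (hK : IsCompact K) (hKU : K ⊆ U)
    {g : (ι → ℂ) → ℂ} (hg : ContDiffOn ℝ ∞ g U) (h0 : ∀ z, z ∉ K → g z = 0) :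
    ContDiff ℝ ∞ g ∧ HasCompactSupport g ∧ Integrable g := by
  have h1 : HasCompactSupport g := HasCompactSupport.intro hK fun z hz => h0 z hz
  have h2 : ContDiff ℝ ∞ g := by
    rw [contDiff_iff_contDiffAt]
    intro z
    by_cases hz : z ∈ K
    · exact hg.contDiffAt (hU.mem_nhds (hKU hz))
    · have h3 : g =ᶠ[nhds z] fun _ => 0 :=
        Filter.eventually_of_mem (hK.isClosed.isOpen_compl.mem_nhds hz) fun w hw => h0 w hw
      exact (contDiffAt_const (c := (0 : ℂ))).congr_of_eventuallyEq h3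
  exact ⟨h2, h1, h2.continuous.integrable_of_hasCompactSupport h1⟩

theorem s_wd_zero {K : Set (ι → ℂ)} (hK : IsClosed K) {g : (ι → ℂ) → ℂ}
    (h0 : ∀ z, z ∉ K → g z = 0) (b : ι) (z : ι → ℂ) (hz : z ∉ K) :
    wd b g z = 0 ∧ wdb b g z = 0 := by
  have h3 : g =ᶠ[nhds z] fun _ => 0 :=
    Filter.eventually_of_mem (hK.isOpen_compl.mem_nhds hz) fun w hw => h0 w hw
  have h4 : fderiv ℝ g z = 0 := by
    rw [h3.fderiv_eq]; simp
  simp [wd, wdb, h4]

theorem s_mix {p m : ℕ} {U : Set (ι → ℂ)} {S : Form ι p}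
    (hS : ∀ I J, ContDiffOn ℝ ∞ (fun z => S z I J) U) (A : (ι → ℂ) → Matrix ι ι ℂ)
    (hA : ∀ x y, ContDiffOn ℝ ∞ (fun z => A z x y) U) (H : Fin m → (ι → ℂ) → Matrix ι ι ℂ)
    (hH : ∀ j x y, ContDiffOn ℝ ∞ (fun z => H j z x y) U) :
    ContDiffOn ℝ ∞ (fun z => mixD (S z) (Fin.cons (α := fun _ => Matrix ι ι ℂ) (A z)
      (fun j => H j z))) U := by
  unfold mixD
  refine ContDiffOn.sum fun e _ => ContDiffOn.sum fun e' _ => ?_
  refine (contDiffOn_const.mul (hS _ _)).mul ?_
  simp only [Fin.prod_univ_succ, Fin.cons_zero, Fin.cons_succ]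
  exact (hA _ _).mul (contDiffOn_prod fun j _ => hH j _ _)

theorem s_cons_add (h1 : T_A1) {p m : ℕ} (S : (Fin p → ι) → (Fin p → ι) → ℂ)
    (A B : Matrix ι ι ℂ) (H : Fin m → Matrix ι ι ℂ) :
    mixD S (Fin.cons (α := fun _ => Matrix ι ι ℂ) (A + B) H) =
      mixD S (Fin.cons (α := fun _ => Matrix ι ι ℂ) A H) +
        mixD S (Fin.cons (α := fun _ => Matrix ι ι ℂ) B H) := by
  have h := (h1 ι p (m + 1) S S (Fin.cons (α := fun _ => Matrix ι ι ℂ) 0 H) 0 A B 0).1
  simpa only [Fin.update_cons_zero] using h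

theorem s_cons_smul (h1 : T_A1) {p m : ℕ} (S : (Fin p → ι) → (Fin p → ι) → ℂ)
    (c : ℂ) (A : Matrix ι ι ℂ) (H : Fin m → Matrix ι ι ℂ) :
    mixD S (Fin.cons (α := fun _ => Matrix ι ι ℂ) (c • A) H) =
      c * mixD S (Fin.cons (α := fun _ => Matrix ι ι ℂ) A H) := by
  have h := (h1 ι p (m + 1) S S (Fin.cons (α := fun _ => Matrix ι ι ℂ) 0 H) 0 A A c).2.1
  simpa only [Fin.update_cons_zero] using h

theorem s_cons_zero (h1 : T_A1) {p m : ℕ} (S : (Fin p → ι) → (Fin p → ι) → ℂ)
    (H : Fin m → Matrix ι ι ℂ) :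
    mixD S (Fin.cons (α := fun _ => Matrix ι ι ℂ) 0 H) = 0 := by
  have h := s_cons_smul h1 S 0 0 H
  rwa [zero_smul, zero_mul] at h

theorem s_cons_sum (h1 : T_A1) {p m : ℕ} (S : (Fin p → ι) → (Fin p → ι) → ℂ)
    (T : Finset ι) (c : ι → ℂ) (A : ι → Matrix ι ι ℂ) (H : Fin m → Matrix ι ι ℂ) :
    mixD S (Fin.cons (α := fun _ => Matrix ι ι ℂ) (∑ b ∈ T, c b • A b) H) =
      ∑ b ∈ T, c b * mixD S (Fin.cons (α := fun _ => Matrix ι ι ℂ) (A b) H) := by
  induction T using Finset.induction_on with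
  | empty => simpa using s_cons_zero h1 S H
  | insert b T hb ih =>
    rw [Finset.sum_insert hb, Finset.sum_insert hb, s_cons_add h1, s_cons_smul h1, ih]

theorem s_out_left (x y : ι → ℂ) : out x y = ∑ b, x b • out (Pi.single b 1) y := by
  ext i j
  rw [Matrix.sum_apply]
  simp only [out, Matrix.smul_apply, smul_eq_mul]
  rw [Finset.sum_eq_single i]
  · simp
  · intro b _ hb
    rw [Pi.single_eq_of_ne (Ne.symm hb)]; ring
  · intro h; exact absurd (Finset.mem_univ i) h

theorem s_out_right (x y : ι → ℂ) : out x y = ∑ b, y b • out x (Pi.single b 1) := by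
  ext i j
  rw [Matrix.sum_apply]
  simp only [out, Matrix.smul_apply, smul_eq_mul]
  rw [Finset.sum_eq_single j]
  · simp [mul_comm]
  · intro b _ hb
    rw [Pi.single_eq_of_ne (Ne.symm hb)]; ring
  · intro h; exact absurd (Finset.mem_univ j) h

theorem s_hess_sm {U : Set (ι → ℂ)} (hU : IsOpen U) {f : (ι → ℂ) → ℂ}
    (hf : ContDiffOn ℝ ∞ f U) (x y : ι) : ContDiffOn ℝ ∞ (fun z => hess f z x y) U :=
  (Pool.Agent.H78.EQ.pf_W6 ι x (fun w => wdb y f w) U hU
    (Pool.Agent.H78.EQ.pf_W6 ι y f U hU hf).2).1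

end gen

theorem pf_S2 (h0 : T_S0) (h1 : T_S1) (hA : T_A1) : T_S2 := by
  intro ι _ _ p m U S a f v hU hS ha hac haU hf hv
  set K := tsupport a with hK
  have hKc : IsCompact K := hac
  have hKcl : IsClosed K := isClosed_tsupport a
  have ha0 : ∀ z, z ∉ K → a z = 0 := fun z hz => image_eq_zero_of_notMem_tsupport hz
  have hW1 := Pool.Agent.H78.EQ.pf_W1
  have hW6 := Pool.Agent.H78.EQ.pf_W6
  set X : ι → (ι → ℂ) → ℂ := fun b w => mixD (S w) (Fin.cons (α := fun _ => Matrix ι ι ℂ)
        (out (Pi.single b 1) (gdb f w)) (fun j => hess (v j) w)) with hX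
  set M1 : (ι → ℂ) → ℂ := fun z => mixD (S z) (Fin.cons (α := fun _ => Matrix ι ι ℂ)
        (hess f z) (fun j => hess (v j) z)) with hM1
  set M2 : (ι → ℂ) → ℂ := fun z => mixD (S z) (Fin.cons (α := fun _ => Matrix ι ι ℂ)
        (out (gd a z) (gdb f z)) (fun j => hess (v j) z)) with hM2
  have hgdb : ∀ y, ContDiffOn ℝ ∞ (fun w => gdb f w y) U := fun y => (hW6 ι y f U hU hf).2
  have hgd : ∀ y, ContDiffOn ℝ ∞ (fun w => gd a w y) U :=
    fun y => (hW6 ι y a U hU ha.contDiffOn).1
  have hHs : ∀ (j : Fin m) x y, ContDiffOn ℝ ∞ (fun z => hess (v j) z x y) U :=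
    fun j x y => s_hess_sm hU (hv j) x y
  have hXs : ∀ b, ContDiffOn ℝ ∞ (X b) U := by
    intro b
    refine s_mix hS.smooth (fun w => out (Pi.single b 1) (gdb f w)) (fun x y => ?_)
      (fun j => hess (v j)) hHs
    exact contDiffOn_const.mul (hgdb y)
  have hM1s : ContDiffOn ℝ ∞ M1 U :=
    s_mix hS.smooth (fun w => hess f w) (fun x y => s_hess_sm hU hf x y)
      (fun j => hess (v j)) hHs
  have hM2s : ContDiffOn ℝ ∞ M2 U := by
    refine s_mix hS.smooth (fun w => out (gd a w) (gdb f w)) (fun x y => ?_)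
      (fun j => hess (v j)) hHs
    exact (hgd x).mul (hgdb y)
  have hgd0 : ∀ z, z ∉ K → gd a z = 0 := fun z hz => by
    funext b
    exact (s_wd_zero hKcl ha0 b z hz).1
  have hM20 : ∀ z, z ∉ K → M2 z = 0 := by
    intro z hz
    have h3 : out (gd a z) (gdb f z) = 0 := by
      ext i j
      simp [out, hgd0 z hz]
    simp only [hM2, h3]
    exact s_cons_zero hA _ _
  have hg : ∀ b, ContDiff ℝ ∞ (fun z => a z * X b z) ∧
      HasCompactSupport (fun z => a z * X b z) ∧ Integrable (fun z => a z * X b z) := fun b =>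
    s_glob hU hKc haU (ha.contDiffOn.mul (hXs b)) fun z hz => by rw [ha0 z hz, zero_mul]
  have hi1 : Integrable (fun z => a z * M1 z) :=
    (s_glob hU hKc haU (ha.contDiffOn.mul hM1s) fun z hz => by rw [ha0 z hz, zero_mul]).2.2
  have hi2 : Integrable M2 := (s_glob hU hKc haU hM2s hM20).2.2
  have hid : ∀ z, ∑ b, wd b (fun w => a w * X b w) z = a z * M1 z + M2 z := by
    intro z
    by_cases hz : z ∈ K
    · have hzU := haU hz
      have hp : ∀ b, wd b (fun w => a w * X b w) z = a z * wd b (X b) z + X b z * wd b a z := by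
        intro b
        exact (hW1 ι b a (X b) z (ha.differentiable (by simp) z)
          (((hXs b).contDiffAt (hU.mem_nhds hzU)).differentiableAt (by simp))).2.2.1
      rw [Finset.sum_congr rfl fun b _ => hp b, Finset.sum_add_distrib, ← Finset.mul_sum]
      congr 1
      · exact congrArg (fun t => a z * t) (h1 ι p m U S f v hU hS hf hv z hzU).1
      · have h4 : M2 z = ∑ b, gd a z b * X b z := by
          simp only [hM2, hX]
          rw [s_out_left (gd a z) (gdb f z), s_cons_sum hA]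
        rw [h4]
        exact Finset.sum_congr rfl fun b _ => mul_comm _ _
    · rw [ha0 z hz, hM20 z hz, zero_mul, zero_add]
      refine Finset.sum_eq_zero fun b _ => (s_wd_zero hKcl (fun w hw => ?_) b z hz).1
      show a w * X b w = 0
      rw [ha0 w hw, zero_mul]
  have hint : ∫ z, (a z * M1 z + M2 z) = 0 := by
    have h5 : ∀ b ∈ (Finset.univ : Finset ι), Integrable (fun z => wd b (fun w => a w * X b w) z) := by
      intro b _
      refine (s_glob hU hKc haU ?_ fun z hz => ?_).2.2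
      · exact (hW6 ι b _ U hU (hg b).1.contDiffOn).1
      · refine (s_wd_zero hKcl (fun w hw => ?_) b z hz).1
        show a w * X b w = 0
        rw [ha0 w hw, zero_mul]
    rw [← integral_congr_ae (Filter.Eventually.of_forall hid), integral_finsetSum _ h5]
    exact Finset.sum_eq_zero fun b _ => (h0 ι _ b ((hg b).1.of_le (by simp)) (hg b).2.1).1
  rw [integral_add hi1 hi2] at hint
  exact eq_neg_of_add_eq_zero_right hint

theorem pf_S3 (h0 : T_S0) (h1 : T_S1) (h2 : T_S2) (hA : T_A1) : T_S3 := by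
  intro ι _ _ p m U S a f v hU hS ha hac haU hf hv
  set K := tsupport a with hK
  have hKc : IsCompact K := hac
  have hKcl : IsClosed K := isClosed_tsupport a
  have ha0 : ∀ z, z ∉ K → a z = 0 := fun z hz => image_eq_zero_of_notMem_tsupport hz
  have hW1 := Pool.Agent.H78.EQ.pf_W1
  have hW6 := Pool.Agent.H78.EQ.pf_W6
  set X : ι → (ι → ℂ) → ℂ := fun b w => mixD (S w) (Fin.cons (α := fun _ => Matrix ι ι ℂ)
        (out (gd a w) (Pi.single b 1)) (fun j => hess (v j) w)) with hX
  set M1 : (ι → ℂ) → ℂ := fun z => mixD (S z) (Fin.cons (α := fun _ => Matrix ι ι ℂ)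
        (hess a z) (fun j => hess (v j) z)) with hM1
  set M2 : (ι → ℂ) → ℂ := fun z => mixD (S z) (Fin.cons (α := fun _ => Matrix ι ι ℂ)
        (out (gd a z) (gdb f z)) (fun j => hess (v j) z)) with hM2
  have hgdb : ∀ y, ContDiffOn ℝ ∞ (fun w => gdb f w y) U := fun y => (hW6 ι y f U hU hf).2
  have hgd : ∀ y, ContDiffOn ℝ ∞ (fun w => gd a w y) U :=
    fun y => (hW6 ι y a U hU ha.contDiffOn).1
  have hHs : ∀ (j : Fin m) x y, ContDiffOn ℝ ∞ (fun z => hess (v j) z x y) U :=
    fun j x y => s_hess_sm hU (hv j) x y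
  have hXs : ∀ b, ContDiffOn ℝ ∞ (X b) U := by
    intro b
    refine s_mix hS.smooth (fun w => out (gd a w) (Pi.single b 1)) (fun x y => ?_)
      (fun j => hess (v j)) hHs
    exact (hgd x).mul contDiffOn_const
  have hM1s : ContDiffOn ℝ ∞ M1 U :=
    s_mix hS.smooth (fun w => hess a w) (fun x y => s_hess_sm hU ha.contDiffOn x y)
      (fun j => hess (v j)) hHs
  have hM2s : ContDiffOn ℝ ∞ M2 U := by
    refine s_mix hS.smooth (fun w => out (gd a w) (gdb f w)) (fun x y => ?_)
      (fun j => hess (v j)) hHs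
    exact (hgd x).mul (hgdb y)
  have hgd0 : ∀ z, z ∉ K → gd a z = 0 := fun z hz => by
    funext b
    exact (s_wd_zero hKcl ha0 b z hz).1
  have hM20 : ∀ z, z ∉ K → M2 z = 0 := by
    intro z hz
    have h3 : out (gd a z) (gdb f z) = 0 := by
      ext i j
      simp [out, hgd0 z hz]
    simp only [hM2, h3]
    exact s_cons_zero hA _ _
  have hX0 : ∀ b z, z ∉ K → X b z = 0 := by
    intro b z hz
    have h3 : out (gd a z) (Pi.single b 1) = 0 := by
      ext i j
      simp [out, hgd0 z hz]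
    simp only [hX, h3]
    exact s_cons_zero hA _ _
  have hM10 : ∀ z, z ∉ K → M1 z = 0 := by
    intro z hz
    have h3 : hess a z = 0 := by
      ext i j
      refine (s_wd_zero hKcl (fun w hw => ?_) i z hz).1
      exact (s_wd_zero hKcl ha0 j w hw).2
    simp only [hM1, h3]
    exact s_cons_zero hA _ _
  have hg : ∀ b, ContDiff ℝ ∞ (fun z => f z * X b z) ∧
      HasCompactSupport (fun z => f z * X b z) ∧ Integrable (fun z => f z * X b z) := fun b =>
    s_glob hU hKc haU (hf.mul (hXs b)) fun z hz => by rw [hX0 b z hz, mul_zero]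
  have hi1 : Integrable (fun z => f z * M1 z) :=
    (s_glob hU hKc haU (hf.mul hM1s) fun z hz => by rw [hM10 z hz, mul_zero]).2.2
  have hi2 : Integrable M2 := (s_glob hU hKc haU hM2s hM20).2.2
  have hid : ∀ z, ∑ b, wdb b (fun w => f w * X b w) z = f z * M1 z + M2 z := by
    intro z
    by_cases hz : z ∈ K
    · have hzU := haU hz
      have hp : ∀ b, wdb b (fun w => f w * X b w) z =
          f z * wdb b (X b) z + X b z * wdb b f z := by
        intro b
        exact (hW1 ι b f (X b) z ((hf.contDiffAt (hU.mem_nhds hzU)).differentiableAt (by simp))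
          (((hXs b).contDiffAt (hU.mem_nhds hzU)).differentiableAt (by simp))).2.2.2.1
      rw [Finset.sum_congr rfl fun b _ => hp b, Finset.sum_add_distrib, ← Finset.mul_sum]
      congr 1
      · exact congrArg (fun t => f z * t) (h1 ι p m U S a v hU hS ha.contDiffOn hv z hzU).2
      · have h4 : M2 z = ∑ b, gdb f z b * X b z := by
          simp only [hM2, hX]
          rw [s_out_right (gd a z) (gdb f z), s_cons_sum hA]
        rw [h4]
        exact Finset.sum_congr rfl fun b _ => mul_comm _ _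
    · rw [hM10 z hz, hM20 z hz, mul_zero, zero_add]
      refine Finset.sum_eq_zero fun b _ => (s_wd_zero hKcl (fun w hw => ?_) b z hz).2
      show f w * X b w = 0
      rw [hX0 b w hw, mul_zero]
  have hint : ∫ z, (f z * M1 z + M2 z) = 0 := by
    have h5 : ∀ b ∈ (Finset.univ : Finset ι),
        Integrable (fun z => wdb b (fun w => f w * X b w) z) := by
      intro b _
      refine (s_glob hU hKc haU ?_ fun z hz => ?_).2.2
      · exact (hW6 ι b _ U hU (hg b).1.contDiffOn).2
      · refine (s_wd_zero hKcl (fun w hw => ?_) b z hz).2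
        show f w * X b w = 0
        rw [hX0 b w hw, mul_zero]
    rw [← integral_congr_ae (Filter.Eventually.of_forall hid), integral_finsetSum _ h5]
    exact Finset.sum_eq_zero fun b _ => (h0 ι _ b ((hg b).1.of_le (by simp)) (hg b).2.1).2
  rw [integral_add hi1 hi2] at hint
  have h6 := h2 ι p m U S a f v hU hS ha hac haU hf hv
  have h7 : ∫ z, f z * M1 z = - ∫ z, M2 z := eq_neg_of_add_eq_zero_left hint
  have h8 : ∫ z, M2 z = - ∫ z, a z * mixD (S z) (Fin.cons (α := fun _ => Matrix ι ι ℂ)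
        (hess f z) (fun j => hess (v j) z)) := h6
  rw [h7, h8, neg_neg]

end

end Pool.Agent.H46.EQ
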