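import Pool.Agent.H92.EQ.TF1

/-!
# MP_75a732_an, row A13: domination
-/

set_option autoImplicit false

open scoped BigOperators ComplexConjugate ContDiff ComplexOrder
open Pool.Agent.H92.EQ

namespace Pool.Agent.H46.EQ

variable {ι : Type} [Fintype ι] [DecidableEq ι]

theorem dom_psd {H B : Matrix ι ι ℂ} (h : Dom H B) : B.PosSemidef := by
  have h1 := h.1.add h.2.1
  have h2 : B - ((1 : ℂ) / 2) • (H + H.conjTranspose) + (B + ((1 : ℂ) / 2) • (H + H.conjTranspose)) =
      (2 : ℂ) • B := by
    rw [two_smul]; abel
  rw [h2] at h1
  have h3 := h1.smul (show (0 : ℂ) ≤ 1 / 2 by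
    rw [Complex.nonneg_iff]; norm_num)
  rwa [smul_smul, show (1 / 2 : ℂ) * 2 = 1 by norm_num, one_smul] at h3

theorem split (H B : Matrix ι ι ℂ) : H =
    ((B + ((1 : ℂ) / 2) • (H + H.conjTranspose)) + (-1 : ℂ) • B) +
      (Complex.I • (B + (-Complex.I / 2) • (H - H.conjTranspose)) + (-Complex.I) • B) := by
  ext a b
  simp only [Matrix.add_apply, Matrix.smul_apply, Matrix.sub_apply, smul_eq_mul]
  linear_combination ((1 / 2 : ℂ) * (H a b - H.conjTranspose a b)) * Complex.I_sq

theorem key (h1 : T_A1) (h4 : T_A4) {p m : ℕ} (S : (Fin p → ι) → (Fin p → ι) → ℂ)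
    (hS : Psd S) (B : Matrix ι ι ℂ) (T : Finset (Fin m)) : ∀ G : Fin m → Matrix ι ι ℂ,
    (∀ j ∈ T, Dom (G j) B) → (∀ j ∉ T, (G j).PosSemidef) →
    ‖mixD S G‖ ≤ 6 ^ T.card * (mixD S (fun j => if j ∈ T then B else G j)).re := by
  induction T using Finset.induction_on with
  | empty =>
    intro G _ hG
    have h2 := h4 ι p m S G hS fun j => hG j (Finset.notMem_empty j)
    simp only [Finset.card_empty, pow_zero, one_mul, Finset.notMem_empty, if_false]
    exact le_of_eq (congrArg Complex.re (Complex.norm_of_nonneg' h2))
  | insert j T hj ih =>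
    intro G hD hG
    have hDj := hD j (Finset.mem_insert_self j T)
    have hB := dom_psd hDj
    set K1 := B + ((1 : ℂ) / 2) • (G j + (G j).conjTranspose) with hK1
    set K3 := B + (-Complex.I / 2) • (G j - (G j).conjTranspose) with hK3
    set W : Fin m → Matrix ι ι ℂ := fun i => if i ∈ insert j T then B else G i with hW
    have hWj : W j = B := by simp [hW]
    have hWu : ∀ K : Matrix ι ι ℂ,
        (fun i => if i ∈ T then B else Function.update G j K i) = Function.update W j K := by
      intro K
      funext i
      by_cases hi : i = j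
      · subst hi
        rw [Function.update_self, Function.update_self, if_neg hj]
      · rw [Function.update_of_ne hi, Function.update_of_ne hi]
        simp only [hW, Finset.mem_insert]
        simp only [hi, false_or]
    have hWp : ∀ i, i ≠ j → (W i).PosSemidef := by
      intro i hi
      simp only [hW]
      split_ifs with h
      · exact hB
      · exact hG i h
    have hih : ∀ K : Matrix ι ι ℂ, K.PosSemidef →
        ‖mixD S (Function.update G j K)‖ ≤ 6 ^ T.card * (mixD S (Function.update W j K)).re := by
      intro K hK
      have h2 := ih (Function.update G j K) (fun i hi => by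
        have hne : i ≠ j := fun h => hj (h ▸ hi)
        rw [Function.update_of_ne hne]
        exact hD i (Finset.mem_insert_of_mem hi)) (fun i hi => by
        by_cases hne : i = j
        · subst hne
          rw [Function.update_self]
          exact hK
        · rw [Function.update_of_ne hne]
          exact hG i fun h => (Finset.mem_insert.1 h).elim hne hi)
      rwa [hWu K] at h2
    have hpos : ∀ K : Matrix ι ι ℂ, K.PosSemidef → 0 ≤ (mixD S (Function.update W j K)).re := by
      intro K hK
      have h2 := h4 ι p m S (Function.update W j K) hS fun i => by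
        by_cases hne : i = j
        · subst hne
          rw [Function.update_self]
          exact hK
        · rw [Function.update_of_ne hne]
          exact hWp i hne
      exact (Complex.nonneg_iff.1 h2).1
    have hadd : ∀ (V : Fin m → Matrix ι ι ℂ) (A A' : Matrix ι ι ℂ),
        mixD S (Function.update V j (A + A')) =
          mixD S (Function.update V j A) + mixD S (Function.update V j A') :=
      fun V A A' => (h1 ι p m S S V j A A' 0).1
    have hsm : ∀ (V : Fin m → Matrix ι ι ℂ) (c : ℂ) (A : Matrix ι ι ℂ),
        mixD S (Function.update V j (c • A)) = c * mixD S (Function.update V j A) :=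
      fun V c A => (h1 ι p m S S V j A A c).2.1
    have hWB : Function.update W j B = W := by
      conv_lhs => rw [← hWj]
      exact Function.update_eq_self j W
    -- the comparison with `2 B`
    have hcmp : ∀ X : Matrix ι ι ℂ, (B - X).PosSemidef →
        (mixD S (Function.update W j (B + X))).re ≤ 2 * (mixD S W).re := by
      intro X hX
      have h2 := hadd W (B - X) (B + X)
      have h3 : B - X + (B + X) = (2 : ℂ) • B := by rw [two_smul]; abel
      rw [h3, hsm, hWB] at h2
      have h5 := hpos _ hX
      have h6 := congrArg Complex.re h2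
      rw [Complex.add_re, Complex.mul_re] at h6
      simp only [Complex.re_ofNat, Complex.im_ofNat, zero_mul, sub_zero] at h6
      linarith
    have e1 : mixD S G = (mixD S (Function.update G j K1) + (-1) * mixD S (Function.update G j B)) +
        (Complex.I * mixD S (Function.update G j K3) +
          (-Complex.I) * mixD S (Function.update G j B)) := by
      have hs : G j = (K1 + (-1 : ℂ) • B) + (Complex.I • K3 + (-Complex.I) • B) := split (G j) B
      have hG0 : mixD S G = mixD S (Function.update G j
          ((K1 + (-1 : ℂ) • B) + (Complex.I • K3 + (-Complex.I) • B))) := by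
        rw [← hs, Function.update_eq_self]
      rw [hG0, hadd G (K1 + (-1 : ℂ) • B), hadd G K1, hadd G (Complex.I • K3), hsm, hsm, hsm]
    have r1 := hih K1 hDj.2.1
    have r2 := hih B hB
    have r3 := hih K3 hDj.2.2.2
    have c1 := hcmp _ hDj.1
    have c3 := hcmp _ hDj.2.2.1
    rw [hWB] at r2
    have hn : ‖mixD S G‖ ≤ ‖mixD S (Function.update G j K1)‖ + ‖mixD S (Function.update G j B)‖ +
        (‖mixD S (Function.update G j K3)‖ + ‖mixD S (Function.update G j B)‖) := by
      rw [e1]
      refine (norm_add_le _ _).trans (add_le_add ((norm_add_le _ _).trans ?_)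
        ((norm_add_le _ _).trans ?_))
      · rw [norm_mul, norm_neg, norm_one, one_mul]
      · rw [norm_mul, norm_mul, norm_neg, Complex.norm_I, one_mul, one_mul]
    rw [Finset.card_insert_of_notMem hj, pow_succ]
    have h6 : (0 : ℝ) ≤ 6 ^ T.card := by positivity
    have m1 := mul_le_mul_of_nonneg_left c1 h6
    have m3 := mul_le_mul_of_nonneg_left c3 h6
    calc ‖mixD S G‖ ≤ _ := hn
      _ ≤ 6 ^ T.card * (2 * (mixD S W).re) + 6 ^ T.card * (mixD S W).re +
          (6 ^ T.card * (2 * (mixD S W).re) + 6 ^ T.card * (mixD S W).re) :=
          add_le_add (add_le_add (r1.trans m1) r2) (add_le_add (r3.trans m3) r2)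
      _ = 6 ^ T.card * 6 * (mixD S W).re := by ring

theorem pf_A13 (h1 : T_A1) (h4 : T_A4) : T_A13 := by
  intro ι _ _ p m S H B hS hD
  have h := key h1 h4 S hS B Finset.univ H (fun j _ => hD j)
    (fun j hj => absurd (Finset.mem_univ j) hj)
  simpa using h

end Pool.Agent.H46.EQ
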